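import Pool.Agent.Lib.MP_fee02f_an.RR.R13

/-!
# Rapid decay for uniformly discrete actions on coarsely uniformly convex spaces

The hull of a finite family of points is a rough circumcentre, its size the circumradius.
-/

set_option autoImplicit false

open scoped ENNReal

namespace RapidDecay

namespace UC

/-- coarse uniform convexity of balls -/
def Convex (X : Type*) [PseudoMetricSpace X] : Prop :=
  ∀ ε : ℝ, 0 < ε → ∃ δ R₀ : ℝ, 0 < δ ∧ ∀ R : ℝ, R₀ ≤ R → ∀ x y : X, ε * R ≤ dist x y →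
    ∃ m : X, ∀ z : X, dist x z ≤ R → dist y z ≤ R → dist m z ≤ (1 - δ) * R

/-- finite Assouad-Nagata dimension at large scales -/
def Nagata (X : Type*) [PseudoMetricSpace X] : Prop :=
  ∃ (c : ℝ) (N : ℕ), ∀ s : ℝ, 1 ≤ s → ∃ 𝒰 : Set (Set X), (∀ x, ∃ U ∈ 𝒰, x ∈ U) ∧
    (∀ U ∈ 𝒰, ∀ x ∈ U, ∀ y ∈ U, dist x y ≤ c * s) ∧
    ∀ B : Set X, (∀ x ∈ B, ∀ y ∈ B, dist x y ≤ s) → {U ∈ 𝒰 | (U ∩ B).Nonempty}.encard ≤ N

/-- uniformly discrete action -/
def UDisc (Γ X : Type*) [Group Γ] [PseudoMetricSpace X] [MulAction Γ X] : Prop :=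
  ∀ R : ℝ, ∃ b : ℕ, ∀ x : X, {g : Γ | dist (g • x) x ≤ R}.encard ≤ b

section rad

variable {X : Type*} [PseudoMetricSpace X]

def radSet (u : ℕ → X) (I : Finset ℕ) : Set ℝ :=
  {t | 0 ≤ t ∧ ∃ a : X, ∀ i ∈ I, dist a (u i) ≤ t}

/-- the rough circumradius -/
noncomputable def rad (u : ℕ → X) (I : Finset ℕ) : ℝ := sInf (radSet u I)

theorem radSet_bddBelow (u : ℕ → X) (I : Finset ℕ) : BddBelow (radSet u I) :=
  ⟨0, fun _ ht => ht.1⟩

theorem radSet_nonempty (u : ℕ → X) (I : Finset ℕ) : (radSet u I).Nonempty :=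
  ⟨∑ i ∈ I, dist (u 0) (u i), Finset.sum_nonneg fun _ _ => dist_nonneg, u 0, fun _ hi =>
    Finset.single_le_sum (f := fun i => dist (u 0) (u i)) (fun _ _ => dist_nonneg) hi⟩

theorem rad_nonneg (u : ℕ → X) (I : Finset ℕ) : 0 ≤ rad u I :=
  le_csInf (radSet_nonempty u I) fun _ ht => ht.1

theorem rad_le {u : ℕ → X} {I : Finset ℕ} {t : ℝ} (ht : 0 ≤ t) (a : X)
    (h : ∀ i ∈ I, dist a (u i) ≤ t) : rad u I ≤ t :=
  csInf_le (radSet_bddBelow u I) ⟨ht, a, h⟩

theorem rad_mono {u : ℕ → X} {I I' : Finset ℕ} (h : I' ⊆ I) : rad u I' ≤ rad u I :=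
  csInf_le_csInf (radSet_bddBelow u I') (radSet_nonempty u I) fun _ ht =>
    ⟨ht.1, ht.2.imp fun _ ha i hi => ha i (h hi)⟩

theorem rad_congr {u w : ℕ → X} {I : Finset ℕ} (h : ∀ i ∈ I, u i = w i) : rad u I = rad w I := by
  unfold rad
  congr 1
  ext t
  constructor
  · rintro ⟨h0, a, ha⟩
    exact ⟨h0, a, fun i hi => by rw [← h i hi]; exact ha i hi⟩
  · rintro ⟨h0, a, ha⟩
    exact ⟨h0, a, fun i hi => by rw [h i hi]; exact ha i hi⟩

theorem exists_cen (u : ℕ → X) (I : Finset ℕ) : ∃ a : X, ∀ i ∈ I, dist a (u i) ≤ rad u I + 1 := by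
  obtain ⟨t, ⟨_, a, ha⟩, hlt⟩ := exists_lt_of_csInf_lt (radSet_nonempty u I)
    (show sInf (radSet u I) < rad u I + 1 by unfold rad; linarith)
  exact ⟨a, fun i hi => (ha i hi).trans hlt.le⟩

/-- a rough circumcentre -/
noncomputable def cen (u : ℕ → X) (I : Finset ℕ) : X := (exists_cen u I).choose

theorem cen_spec (u : ℕ → X) (I : Finset ℕ) : ∀ i ∈ I, dist (cen u I) (u i) ≤ rad u I + 1 :=
  (exists_cen u I).choose_spec

theorem rad_le_of_ball {u : ℕ → X} {I : Finset ℕ} {R : ℝ} (hR : 0 ≤ R) (z : X)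
    (h : ∀ i ∈ I, dist (u i) z ≤ R) : rad u I ≤ R :=
  rad_le hR z fun i hi => by rw [dist_comm]; exact h i hi

/-- the key estimate: rough circumcentres of nested families with almost the same radius -/
theorem close_aux (hX : Convex X) {C : ℝ} (hC : 1 ≤ C) (θ : ℝ) (hθ : 0 < θ) :
    ∃ η K : ℝ, 0 < η ∧ ∀ R : ℝ, 1 ≤ R → ∀ (u : ℕ → X) (I I' : Finset ℕ) (a b : X),
      I'.Nonempty → I' ⊆ I → rad u I ≤ C * R → rad u I - rad u I' ≤ η * (C * R) →
      (∀ i ∈ I', dist a (u i) ≤ rad u I' + 1) → (∀ i ∈ I, dist b (u i) ≤ rad u I + 1) →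
      dist a b ≤ θ * R + K := by
  obtain ⟨δ, R₀, hδ, hconv⟩ := hX (θ / (C + 1)) (by positivity)
  refine ⟨δ * θ / (4 * C), 2 * |R₀| + 8 * (C + 1) / (δ * θ), by positivity, ?_⟩
  intro R hR u I I' a b hI' hsub hρ hη ha hb
  obtain ⟨i₀, hi₀⟩ := hI'
  have hR0 : 0 < R := by linarith
  have hmono : rad u I' ≤ rad u I := rad_mono hsub
  set r := rad u I + 1 with hr
  have hr0 : 0 < r := by have := rad_nonneg u I; linarith
  have ha' : ∀ i ∈ I', dist a (u i) ≤ r := fun i hi => (ha i hi).trans (by linarith)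
  have hb' : ∀ i ∈ I', dist b (u i) ≤ r := fun i hi => hb i (hsub hi)
  have hab : dist a b ≤ 2 * r := by
    have h1 := dist_triangle_right a b (u i₀)
    have h2 := ha' _ hi₀
    have h3 := hb' _ hi₀
    linarith
  have hK1 : 0 ≤ 2 * |R₀| := by positivity
  have hK2 : 0 < 8 * (C + 1) / (δ * θ) := by positivity
  have hθR : 0 < θ * R := by positivity
  by_contra hcon
  push Not at hcon
  -- the radius is large
  have h1 : R₀ ≤ r := by
    by_contra h
    push Not at h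
    have : r ≤ |R₀| := h.le.trans (le_abs_self _)
    linarith
  have h2 : θ / 2 * R < r := by
    by_contra h
    push Not at h
    have : 2 * r ≤ θ * R := by linarith
    linarith
  have hrC : r ≤ (C + 1) * R := by nlinarith
  have h3 : θ / (C + 1) * r ≤ dist a b := by
    have h4 : θ / (C + 1) * r ≤ θ / (C + 1) * ((C + 1) * R) :=
      mul_le_mul_of_nonneg_left hrC (by positivity)
    have h5 : θ / (C + 1) * ((C + 1) * R) = θ * R := by field_simp
    linarith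
  obtain ⟨m, hm⟩ := hconv r h1 a b h3
  have h4 : ∀ i ∈ I', dist m (u i) ≤ (1 - δ) * r := fun i hi => hm _ (ha' i hi) (hb' i hi)
  have h5 : 0 ≤ (1 - δ) * r := dist_nonneg.trans (h4 i₀ hi₀)
  have h6 : rad u I' ≤ (1 - δ) * r := rad_le h5 m h4
  have h7 : δ * r ≤ δ * θ / (4 * C) * (C * R) + 1 := by nlinarith
  have h8 : δ * θ / (4 * C) * (C * R) = δ * θ * R / 4 := by field_simp
  have h9 : δ * (θ / 2 * R) < δ * r := mul_lt_mul_of_pos_left h2 hδ
  have h10 : δ * θ * R / 4 < 1 := by nlinarith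
  have h11 : R < 4 / (δ * θ) := by
    rw [lt_div_iff₀ (by positivity)]
    nlinarith
  have h12 : 2 * r ≤ 8 * (C + 1) / (δ * θ) := by
    calc 2 * r ≤ 2 * ((C + 1) * R) := by linarith
      _ ≤ 2 * ((C + 1) * (4 / (δ * θ))) := by
          apply mul_le_mul_of_nonneg_left _ (by norm_num)
          exact mul_le_mul_of_nonneg_left h11.le (by linarith)
      _ = 8 * (C + 1) / (δ * θ) := by ring
  linarith

end rad

section action

variable {Γ X : Type*} [Group Γ] [PseudoMetricSpace X] [MulAction Γ X]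
  (hiso : ∀ (g : Γ) (x y : X), dist (g • x) (g • y) = dist x y)

include hiso in
theorem rad_smul (g : Γ) (u : ℕ → X) (I : Finset ℕ) : rad (fun i => g • u i) I = rad u I := by
  unfold rad
  congr 1
  ext t
  constructor
  · rintro ⟨h0, a, ha⟩
    refine ⟨h0, g⁻¹ • a, fun i hi => ?_⟩
    have h1 := hiso g (g⁻¹ • a) (u i)
    rw [smul_inv_smul] at h1
    rw [← h1]
    exact ha i hi
  · rintro ⟨h0, a, ha⟩
    refine ⟨h0, g • a, fun i hi => ?_⟩
    simp only [hiso]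
    exact ha i hi

/-- the family normalised by the first frame -/
noncomputable def nrm (u : ℕ → Γ × X) (I : Finset ℕ) (h : I.Nonempty) (i : ℕ) : X :=
  if i ∈ I then (u (I.min' h)).1⁻¹ • (u i).2 else (u (I.min' h)).1⁻¹ • (u (I.min' h)).2

/-- the equivariant rough circumcentre -/
noncomputable def hl (u : ℕ → Γ × X) (I : Finset ℕ) : Γ × X :=
  if h : I.Nonempty then ((u (I.min' h)).1, (u (I.min' h)).1 • cen (nrm u I h) I) else u 0

omit [PseudoMetricSpace X] in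
theorem nrm_congr {u w : ℕ → Γ × X} {I : Finset ℕ} (h : I.Nonempty) (huw : ∀ i ∈ I, u i = w i) :
    nrm u I h = nrm w I h := by
  funext i
  unfold nrm
  rw [huw _ (I.min'_mem h)]
  split
  · next hi => rw [huw i hi]
  · rfl

omit [PseudoMetricSpace X] in
theorem nrm_smul (g : Γ) (u : ℕ → Γ × X) (I : Finset ℕ) (h : I.Nonempty) :
    nrm (fun i => g • u i) I h = nrm u I h := by
  funext i
  unfold nrm
  simp only [Prod.smul_fst, Prod.smul_snd, smul_eq_mul, mul_inv_rev, mul_smul, inv_smul_smul]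

theorem hl_congr' (u w : ℕ → Γ × X) (I : Finset ℕ) (hI : I.Nonempty)
    (huw : ∀ i ∈ I, u i = w i) : hl u I = hl w I := by
  unfold hl
  rw [dif_pos hI, dif_pos hI, nrm_congr hI huw, huw _ (I.min'_mem hI)]

theorem hl_smul' (g : Γ) (u : ℕ → Γ × X) (I : Finset ℕ) (hI : I.Nonempty) :
    hl (fun i => g • u i) I = g • hl u I := by
  unfold hl
  rw [dif_pos hI, dif_pos hI, nrm_smul]
  simp only [Prod.smul_fst, smul_eq_mul, mul_smul, Prod.smul_mk]

include hiso in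
theorem hl_spec (u : ℕ → Γ × X) (I : Finset ℕ) :
    ∀ i ∈ I, dist (hl u I).2 (u i).2 ≤ rad (fun i => (u i).2) I + 1 := by
  intro i hi
  have hI : I.Nonempty := ⟨i, hi⟩
  set γ : Γ := (u (I.min' hI)).1 with hγ
  have h1 : (hl u I).2 = γ • cen (nrm u I hI) I := by
    unfold hl
    rw [dif_pos hI]
  have h2 : nrm u I hI i = γ⁻¹ • (u i).2 := by
    unfold nrm
    rw [if_pos hi]
  have h3 : rad (nrm u I hI) I = rad (fun i => (u i).2) I := by
    rw [← rad_smul hiso γ⁻¹ (fun i => (u i).2) I]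
    refine rad_congr fun j hj => ?_
    unfold nrm
    rw [if_pos hj]
  have h4 := cen_spec (nrm u I hI) I i hi
  rw [h2, h3] at h4
  rw [h1]
  have h5 := hiso γ (cen (nrm u I hI) I) (γ⁻¹ • (u i).2)
  rw [smul_inv_smul] at h5
  rw [h5]
  exact h4

/-- covers with three points in a common member from finite Assouad-Nagata dimension -/
theorem cover_of_nagata {c : ℝ} {N : ℕ} (h : ∀ s : ℝ, 1 ≤ s → ∃ 𝒰 : Set (Set X),
      (∀ x, ∃ U ∈ 𝒰, x ∈ U) ∧ (∀ U ∈ 𝒰, ∀ x ∈ U, ∀ y ∈ U, dist x y ≤ c * s) ∧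
      ∀ B : Set X, (∀ x ∈ B, ∀ y ∈ B, dist x y ≤ s) → {U ∈ 𝒰 | (U ∩ B).Nonempty}.encard ≤ N)
    (R : ℝ) (hR : 1 ≤ R) :
    ∃ 𝒱 : Set (Set X), (∀ V ∈ 𝒱, ∀ x ∈ V, ∀ y ∈ V, dist x y ≤ (4 * |c| + 4) * R) ∧
      (∀ x y z : X, dist x y ≤ R → dist y z ≤ R → ∃ V ∈ 𝒱, x ∈ V ∧ y ∈ V ∧ z ∈ V) ∧
      ∀ x, {V ∈ 𝒱 | x ∈ V}.encard ≤ N := by
  obtain ⟨𝒰, h1, h2, h3⟩ := h (4 * R) (by linarith)
  refine ⟨(fun U => {x | ∃ y ∈ U, dist x y ≤ 2 * R}) '' 𝒰, ?_, ?_, ?_⟩
  · rintro _ ⟨U, hU, rfl⟩ x ⟨x', hx', hxx⟩ y ⟨y', hy', hyy⟩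
    have h4 := h2 U hU x' hx' y' hy'
    have h5 : c * (4 * R) ≤ |c| * (4 * R) := mul_le_mul_of_nonneg_right (le_abs_self c) (by linarith)
    have h6 := dist_triangle4 x x' y' y
    rw [dist_comm y' y] at h6
    nlinarith
  · intro x y z hxy hyz
    obtain ⟨U, hU, hyU⟩ := h1 y
    refine ⟨_, ⟨U, hU, rfl⟩, ⟨y, hyU, by linarith⟩, ⟨y, hyU, by rw [dist_self]; linarith⟩,
      ⟨y, hyU, by rw [dist_comm]; linarith⟩⟩
  · intro x
    refine le_trans ?_ (h3 (Metric.closedBall x (2 * R)) ?_)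
    · refine le_trans (Set.encard_le_encard ?_) (Set.encard_image_le
        (fun U => {x | ∃ y ∈ U, dist x y ≤ 2 * R}) _)
      rintro _ ⟨⟨U, hU, rfl⟩, y, hy, hxy⟩
      exact ⟨U, ⟨hU, y, hy, by rw [Metric.mem_closedBall, dist_comm]; exact hxy⟩, rfl⟩
    · intro y hy z hz
      rw [Metric.mem_closedBall] at hy hz
      have := dist_triangle_right y z x
      linarith

include hiso in
/-- the hull space of a coarsely uniformly convex space of finite Assouad-Nagata dimension -/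
theorem exists_hull (hX : Convex X) (hN : Nagata X) :
    ∃ S : HullSpace Γ (Γ × X), ∀ x y, S.d x y = dist x.2 y.2 := by
  obtain ⟨c, N, hcN⟩ := hN
  set C : ℝ := 4 * |c| + 4 with hCdef
  have hC : 1 ≤ C := by have := abs_nonneg c; linarith
  have hC0 : 0 < C := by linarith
  refine ⟨{
    C := C
    one_le := hC
    d := fun x y => dist x.2 y.2
    d_nonneg := fun _ _ => dist_nonneg
    d_comm := fun _ _ => dist_comm _ _
    d_tri := fun _ _ _ => dist_triangle _ _ _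
    d_smul := fun g x y => hiso g x.2 y.2
    hl := hl
    hl_congr := fun u w I hI => hl_congr' u w I hI
    hl_smul := fun g u I hI => hl_smul' g u I hI
    v := fun R u I => rad (fun i => (u i).2) I / |C * R|
    mono := ?_
    bdd := ?_
    close := ?_
    μ := N
    cov := ?_ }, fun _ _ => rfl⟩
  · intro R u I I' _ hsub
    have h := rad_mono (u := fun i => (u i).2) hsub
    exact div_le_div_of_nonneg_right h (abs_nonneg _)
  · intro R hR z
    refine ⟨0, fun u I hI hz => ?_⟩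
    have h1 : rad (fun i => (u i).2) I ≤ C * R := rad_le_of_ball (by positivity) z.2 hz
    have h2 := rad_nonneg (fun i => (u i).2) I
    have h3 : 0 < C * R := by positivity
    show |rad (fun i => (u i).2) I / |C * R| - 0| ≤ 1
    rw [abs_of_pos h3, sub_zero, abs_of_nonneg (div_nonneg h2 h3.le), div_le_one h3]
    exact h1
  · intro θ hθ
    obtain ⟨η, K, hη, hclose⟩ := close_aux hX hC θ hθ
    refine ⟨η, K, hη, ?_⟩
    intro R hR u I I' z hI' hsub hz hv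
    have h3 : 0 < C * R := by positivity
    have hv' : rad (fun i => (u i).2) I / |C * R| - rad (fun i => (u i).2) I' / |C * R| ≤ η := hv
    rw [abs_of_pos h3, ← sub_div, div_le_iff₀ h3] at hv'
    exact hclose R hR (fun i => (u i).2) I I' _ _ hI' hsub
      (rad_le_of_ball h3.le z.2 hz) hv' (hl_spec hiso u I') (hl_spec hiso u I)
  · intro R hR
    obtain ⟨𝒱, h1, h2, h3⟩ := cover_of_nagata hcN R hR
    refine ⟨(fun V => Prod.snd ⁻¹' V) '' 𝒱, ?_, ?_, ?_⟩
    · rintro _ ⟨V, hV, rfl⟩ x hx y hy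
      exact h1 V hV x.2 hx y.2 hy
    · intro x y z hxy hyz
      obtain ⟨V, hV, hx, hy, hz⟩ := h2 x.2 y.2 z.2 hxy hyz
      exact ⟨_, ⟨V, hV, rfl⟩, hx, hy, hz⟩
    · intro x
      refine le_trans ?_ (h3 x.2)
      refine le_trans (Set.encard_le_encard ?_) (Set.encard_image_le (fun V => Prod.snd ⁻¹' V) _)
      rintro _ ⟨⟨V, hV, rfl⟩, hx⟩
      exact ⟨V, ⟨hV, hx⟩, rfl⟩

include hiso in
/-- rapid decay for uniformly discrete actions -/
theorem rd (hX : Convex X) (hN : Nagata X) (hU : UDisc Γ X) (o : X) :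
    RDWith (fun g : Γ => dist (g • o) o) := by
  obtain ⟨S, hS⟩ := exists_hull hiso hX hN
  have h1 : UDisc' S := by
    intro R
    obtain ⟨b, hb⟩ := hU R
    refine ⟨b, fun x => ?_⟩
    have h2 : {g : Γ | S.d (g • x) x ≤ R} = {g : Γ | dist (g • x.2) x.2 ≤ R} := by
      ext g
      rw [Set.mem_setOf_eq, Set.mem_setOf_eq, hS, Prod.smul_snd]
    rw [h2]
    exact hb x.2
  have h3 := rd_of_hullSpace S h1 ((1 : Γ), o)
  have h4 : (fun g : Γ => S.d (g • ((1 : Γ), o)) ((1 : Γ), o)) = fun g : Γ => dist (g • o) o := by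
    funext g
    rw [hS, Prod.smul_snd]
  rwa [h4] at h3

end action

/-- the Bruhat-Tits inequality implies coarse uniform convexity -/
theorem convex_of_cat0 {X : Type*} [PseudoMetricSpace X]
    (h : ∀ x y : X, ∃ m : X, ∀ z : X,
      dist z m ^ 2 ≤ (dist z x ^ 2 + dist z y ^ 2) / 2 - dist x y ^ 2 / 4) : Convex X := by
  intro ε hε
  refine ⟨min (ε ^ 2 / 8) 1, 0, lt_min (by positivity) one_pos, fun R hR x y hxy => ?_⟩
  obtain ⟨m, hm⟩ := h x y
  refine ⟨m, fun z hx hy => ?_⟩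
  have h1 := hm z
  rw [dist_comm z m, dist_comm z x, dist_comm z y] at h1
  have h2 : dist x z ^ 2 ≤ R ^ 2 := pow_le_pow_left₀ dist_nonneg hx 2
  have h3 : dist y z ^ 2 ≤ R ^ 2 := pow_le_pow_left₀ dist_nonneg hy 2
  have h4 : (ε * R) ^ 2 ≤ dist x y ^ 2 := pow_le_pow_left₀ (by positivity) hxy 2
  set δ := min (ε ^ 2 / 8) 1 with hδ
  have hδ1 : δ ≤ 1 := min_le_right _ _
  have hδ2 : δ ≤ ε ^ 2 / 8 := min_le_left _ _
  have h5 : dist m z ^ 2 ≤ ((1 - δ) * R) ^ 2 := by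
    have h6 : ((1 - δ) * R) ^ 2 = R ^ 2 - 2 * δ * R ^ 2 + δ ^ 2 * R ^ 2 := by ring
    have h7 : 2 * δ * R ^ 2 ≤ ε ^ 2 / 4 * R ^ 2 :=
      mul_le_mul_of_nonneg_right (by linarith) (sq_nonneg R)
    have h8 : 0 ≤ δ ^ 2 * R ^ 2 := by positivity
    nlinarith
  exact (pow_le_pow_iff_left₀ dist_nonneg (mul_nonneg (by linarith) hR) two_ne_zero).1 h5

end UC

end RapidDecay
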